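import Mathlib
import Pool.Agent.Hhelper43.Cube.Defs
import Pool.Agent.Hhelper43.Cube.Lower
import Pool.Agent.C14S.Defs
import Pool.Agent.C14S.Lay
import Pool.Agent.C14E.Defs
import Pool.Agent.C14E.Sum
import Pool.Agent.C14E.Wall
import Pool.Agent.C14E.LayU

set_option autoImplicit false

namespace Pool.Agent.Results.MP_c14f63_co.EvenColourings

open Pool.Agent.Hhelper43.Cube Pool.Agent.Hhelper43.Cube.C14S Pool.Agent.Hhelper43.Cube.C14E

lemma wall_value (h : ℕ) (z : Fin (2 * h)) :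
    (2 * h + 2) * (Nat.centralBinom h : ℝ) / 4 ^ h - 1
      ≤ A (chi h z (id : V (2 * h) → V (2 * h))) := by
  have hb := fun v => m_lower (n := 2 * h) (N := 2 * h) h z id (fun u w huw => Or.inr huw)
    (fun v => rfl) rfl v
  have hs := Finset.sum_le_sum (s := (Finset.univ : Finset (V (2 * h)))) (fun v _ => hb v)
  simp only [id] at hs
  rw [sum_bound h z] at hs
  have hs' : (2 * h + 2) * (Nat.centralBinom h : ℝ) - 4 ^ h
      ≤ ∑ v : V (2 * h), (m (chi h z id) v : ℝ) := by exact_mod_cast hs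
  unfold A
  rw [pow_mul]
  have h4 : (0 : ℝ) < 4 ^ h := by positivity
  have h5 : ((2 : ℝ) ^ 2) ^ h = 4 ^ h := by norm_num
  rw [h5, div_sub_one h4.ne']
  exact div_le_div_of_nonneg_right hs' h4.le

/-- The exact maximum of `A` over the even untangled colourings of the cube, and bounds for all
convex nondecreasing sums. -/
theorem result (h : ℕ) :
    (1 ≤ h → IsGreatest
      {x : ℝ | ∃ χ : Sym2 (V (2 * h)) → Bool, EvenCol χ ∧ Untangled χ ∧ A χ = x}
      ((2 * h + 2) * (Nat.centralBinom h : ℝ) / 4 ^ h - 1)) ∧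
    IsGreatest
      {x : ℝ | ∃ χ : Sym2 (V (2 * h + 1)) → Bool, EvenCol χ ∧ Untangled χ ∧ A χ = x}
      ((2 * h + 1) * (Nat.centralBinom h : ℝ) / 4 ^ h - 1) ∧
    (EvenCol (layered (2 * h + 1)) ∧ Untangled (layered (2 * h + 1)) ∧
      A (layered (2 * h + 1)) = (2 * h + 1) * (Nat.centralBinom h : ℝ) / 4 ^ h - 1) ∧
    (∀ χ : Sym2 (V (2 * h)) → Bool, EvenCol χ → Untangled χ →
      ∀ Ψ : ℝ → ℝ, ConvexOn ℝ (Set.Ici 0) Ψ → MonotoneOn Ψ (Set.Ici 0) →
        ∑ v : V (2 * h), Ψ (m χ v)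
          ≤ ∑ v : V (2 * h), Ψ (max |((2 * h : ℕ) : ℝ) - 2 * wt v| 2 - 1)) ∧
    (∀ χ : Sym2 (V (2 * h + 1)) → Bool, EvenCol χ → Untangled χ →
      ∀ Ψ : ℝ → ℝ, ConvexOn ℝ (Set.Ici 0) Ψ → MonotoneOn Ψ (Set.Ici 0) →
        ∑ v : V (2 * h + 1), Ψ (m χ v) ≤ ∑ v : V (2 * h + 1), Ψ (m (layered (2 * h + 1)) v)) := by
  have hL : A (layered (2 * h + 1)) = (2 * h + 1) * (Nat.centralBinom h : ℝ) / 4 ^ h - 1 := by
    have h2 := sum_lvl (2 * h + 1)
    have e : (2 * h + 1) / 2 = h := by omega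
    rw [e] at h2
    rw [← h2]
    unfold A
    simp only [m_layered]
  refine ⟨fun hh => ⟨?_, ?_⟩, ⟨?_, ?_⟩, ⟨layered_even _, layered_untangled _, hL⟩, ?_, ?_⟩
  · have z : Fin (2 * h) := ⟨0, by omega⟩
    have h1 := wall_even h z
    have h2 := wall_untangled hh z
    exact ⟨_, h1, h2, le_antisymm (A_le_even h1 h2) (wall_value h z)⟩
  · rintro x ⟨χ, hE, hU, rfl⟩
    exact A_le_even hE hU
  · exact ⟨layered (2 * h + 1), layered_even _, layered_untangled _, hL⟩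
  · rintro x ⟨χ, hE, hU, rfl⟩
    exact A_le_odd hE hU
  · intro χ hE hU Ψ hc hm
    exact sum_even hE hU (by omega) Ψ hc hm
  · intro χ hE hU Ψ hc hm
    refine (sum_odd hE hU (by omega) Ψ hc hm).trans (le_of_eq ?_)
    refine Finset.sum_congr rfl fun v _ => ?_
    rw [m_layered, lvl_real]

end Pool.Agent.Results.MP_c14f63_co.EvenColourings
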