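import Mathlib
import Pool.Agent.Hhelper43.Cube.Defs
import Pool.Agent.Hhelper43.Cube.Lower
import Pool.Agent.C14U.Main

set_option autoImplicit false

namespace Pool.Agent.Results.MP_c14f63_co.OrderOfGrowth

open Pool.Agent.Hhelper43.Cube

/-- The order of growth of `M(n)` is `√n`, with explicit two-sided bounds whose quotient tends to
`π / 2`. -/
theorem result :
    (∀ n : ℕ, 2 ≤ n →
      (2 * (n / 2 : ℕ) + 2) * (Nat.centralBinom (n / 2) : ℝ) / 4 ^ (n / 2) - 1 ≤ M n ∧
      √(2 * n / Real.pi) - 1 ≤ M n ∧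
      M n ≤ √(Real.pi * (n + 1) / 2) - 1 / 2 ∧
      M n ≤ √(Real.pi * n / 2)) ∧
    (∀ h : ℕ, 1 ≤ h → M (2 * h) ≤ 4 ^ h / (Nat.centralBinom h : ℝ) - h / (2 * h - 1)) ∧
    (fun n : ℕ => M n) =Θ[Filter.atTop] (fun n : ℕ => √(n : ℝ)) := by
  refine ⟨fun n hn => ⟨M_lower n hn, M_sqrt n hn, Pool.Agent.C14U.M_le_sqrt n hn,
    (Pool.Agent.C14U.M_le_sqrt n hn).trans (Pool.Agent.C14U.sqrt_step n hn)⟩,
    Pool.Agent.C14U.M_even, ?_, ?_⟩
  · refine Asymptotics.IsBigO.of_bound (√(Real.pi / 2)) ?_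
    filter_upwards [Filter.eventually_ge_atTop 2] with n hn
    have h1 := (Pool.Agent.C14U.M_le_sqrt n hn).trans (Pool.Agent.C14U.sqrt_step n hn)
    have h2 := M_sqrt n hn
    have hn' : (2 : ℝ) ≤ n := by exact_mod_cast hn
    have hpi := Real.pi_pos
    have h0 : 0 ≤ M n := by
      refine le_trans ?_ h2
      rw [sub_nonneg, Real.one_le_sqrt, one_le_div hpi]
      have := Real.pi_le_four
      linarith
    rw [Real.norm_of_nonneg h0, Real.norm_of_nonneg (Real.sqrt_nonneg _),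
      ← Real.sqrt_mul (by positivity)]
    refine h1.trans (le_of_eq ?_)
    congr 1
    ring
  · refine Asymptotics.IsBigO.of_bound 4 ?_
    filter_upwards [Filter.eventually_ge_atTop 16] with n hn
    have h2 := M_sqrt n (by omega)
    have hn' : (16 : ℝ) ≤ n := by exact_mod_cast hn
    have hpi := Real.pi_pos
    have hs4 : 4 ≤ √(n : ℝ) := Real.le_sqrt_of_sq_le (by linarith)
    have h3 : √(n : ℝ) / 2 ≤ √(2 * n / Real.pi) := by
      refine Real.le_sqrt_of_sq_le ?_
      rw [div_pow, Real.sq_sqrt (by linarith), div_le_div_iff₀ (by norm_num) hpi]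
      have := Real.pi_le_four
      nlinarith
    have h0 : 0 ≤ M n := by linarith
    rw [Real.norm_of_nonneg h0, Real.norm_of_nonneg (Real.sqrt_nonneg _)]
    linarith

end Pool.Agent.Results.MP_c14f63_co.OrderOfGrowth
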