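import Mathlib
import Pool.Agent.Hhelper43.Cube.Defs
import Pool.Agent.C14P.Defs
import Pool.Agent.C14P.Low

set_option autoImplicit false

namespace Pool.Agent.Results.MP_c14f63_co.PeriodicColourings

open Pool.Agent.Hhelper43.Cube
open Pool.Agent.C14P

/-- The maximum of `A` over the `(m, L)`-periodic colourings of `Q_n` is at most
`√(2 n / π) + C` with `C` depending on `m` and `L` only, and at least `√(2 n / π) - 1` when
`L` is even. -/
theorem result :
    (∀ m L : ℕ, 0 < L → ∃ C : ℝ, ∀ (n : ℕ) (χ : Sym2 (V n) → Bool), Periodic m L χ →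
      A χ ≤ √(2 * n / Real.pi) + C) ∧
    (∀ m L n : ℕ, 0 < m → Even L → ∃ χ : Sym2 (V n) → Bool, Periodic m L χ ∧
      √(2 * n / Real.pi) - 1 ≤ A χ) := by
  refine ⟨fun m L hL => ?_, fun m L n hm hL => ⟨lay n, periodic_lay m L n hm hL, A_lay n⟩⟩
  have : NeZero L := ⟨hL.ne'⟩
  refine ⟨((C0 m L : ℕ) + m : ℝ) + 2, fun n χ hχ => ?_⟩
  have h1 := A_periodic hχ
  have h2 := aSum_le n
  linarith

end Pool.Agent.Results.MP_c14f63_co.PeriodicColourings
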