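import Mathlib
import Pool.Agent.Hhelper43.Cube.Defs
import Pool.Agent.Hhelper43.Cube.Lower
import Pool.Agent.C14S.Defs
import Pool.Agent.C14S.Lay

set_option autoImplicit false

namespace Pool.Agent.Results.MP_c14f63_co.TreeLike

open Pool.Agent.Hhelper43.Cube Pool.Agent.Hhelper43.Cube.C14S

/-- The exact maximum of `A` over the tree-like colourings of the cube, attained by the layered
colouring, which maximises every convex nondecreasing sum as well. -/
theorem result (n : ℕ) :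
    (∀ χ : Sym2 (V n) → Bool, Simple χ → C14S.TreeLike χ) ∧
    Simple (layered n) ∧
    A (layered n)
      = (2 * (n / 2 : ℕ) + 1) * (Nat.centralBinom (n / 2) : ℝ) / 4 ^ (n / 2) - 1 ∧
    IsGreatest {x : ℝ | ∃ χ : Sym2 (V n) → Bool, C14S.TreeLike χ ∧ A χ = x}
      ((2 * (n / 2 : ℕ) + 1) * (Nat.centralBinom (n / 2) : ℝ) / 4 ^ (n / 2) - 1) ∧
    (∀ v : V n, m (layered n) v = max (n - 2 * wt v) (2 * wt v - n) - 1) ∧
    ∀ χ : Sym2 (V n) → Bool, C14S.TreeLike χ →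
      ∀ Ψ : ℝ → ℝ, ConvexOn ℝ (Set.Ici 0) Ψ → MonotoneOn Ψ (Set.Ici 0) →
        ∑ v : V n, Ψ (m χ v) ≤ ∑ v : V n, Ψ (m (layered n) v) := by
  have hA : A (layered n)
      = (2 * (n / 2 : ℕ) + 1) * (Nat.centralBinom (n / 2) : ℝ) / 4 ^ (n / 2) - 1 := by
    rw [← sum_lvl n]
    unfold A
    simp only [m_layered]
  have hP : ∀ χ : Sym2 (V n) → Bool, C14S.TreeLike χ →
      ∀ Ψ : ℝ → ℝ, ConvexOn ℝ (Set.Ici 0) Ψ → MonotoneOn Ψ (Set.Ici 0) →
        ∑ v : V n, Ψ (m χ v) ≤ ∑ v : V n, Ψ (m (layered n) v) := by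
    intro χ hT Ψ hc hm
    have := main_sum hT Ψ hc hm
    simpa only [m_layered] using this
  refine ⟨fun χ h => treeLike_of_simple h, layered_simple n, hA,
    ⟨⟨layered n, layered_treeLike n, hA⟩, ?_⟩, fun v => m_layered v, hP⟩
  rintro x ⟨χ, hT, rfl⟩
  rw [← hA]
  unfold A
  refine div_le_div_of_nonneg_right ?_ (by positivity)
  exact hP χ hT (fun x => x) (convexOn_id (convex_Ici 0)) (fun _ _ _ _ h => h)

end Pool.Agent.Results.MP_c14f63_co.TreeLike
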